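import Pool.Agent.Q142.NAQ2

set_option autoImplicit false

open Pool.Agent.Q142.NAQ

namespace Pool.Agent.Results.MP_5ffaeb_an.DensityNotInherited

/-- Density of norm attaining operators does not pass to one-complemented subspaces of the domain.
Over both scalar fields:
(1) every nonzero Banach space `E` is isometric to a (closed) one-complemented subspace of a Banach
space `X` such that the norm attaining operators from `X` to `Y` are dense for EVERY normed space
`Y` (Lindenstrauss' property A);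
(2) there are Banach spaces `X`, `Y` and a closed one-complemented subspace `X₁` of `X` such that
`NA(X, Y)` is dense in `L(X, Y)` but `NA(X₁, Y)` is not dense in `L(X₁, Y)`. -/
theorem result.{u} (𝕜 : Type u) [RCLike 𝕜] :
    (∀ (E : Type u) [NormedAddCommGroup E] [NormedSpace 𝕜 E] [CompleteSpace E] [Nontrivial E],
      ∃ (X : Type u) (_ : NormedAddCommGroup X) (_ : NormedSpace 𝕜 X) (_ : CompleteSpace X)
        (X₁ : Submodule 𝕜 X), IsClosed (X₁ : Set X) ∧ OneComplemented X₁ ∧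
        Nonempty (X₁ ≃ₗᵢ[𝕜] E) ∧
        ∀ (Y : Type u) [NormedAddCommGroup Y] [NormedSpace 𝕜 Y], Dense (NA 𝕜 X Y)) ∧
    ∃ (X : Type u) (_ : NormedAddCommGroup X) (_ : NormedSpace 𝕜 X) (_ : CompleteSpace X)
      (Y : Type u) (_ : NormedAddCommGroup Y) (_ : NormedSpace 𝕜 Y) (_ : CompleteSpace Y)
      (X₁ : Submodule 𝕜 X), IsClosed (X₁ : Set X) ∧ OneComplemented X₁ ∧
      Dense (NA 𝕜 X Y) ∧ ¬ Dense (NA 𝕜 X₁ Y) := by
  constructor
  · intro E _ _ _ _
    refine ⟨X 𝕜 E, inferInstance, inferInstance, inferInstance, X1 𝕜 E, isClosed_X1 𝕜 E,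
      oneComplemented_X1 𝕜 E, ⟨iso 𝕜 E⟩, ?_⟩
    intro Y _ _
    rw [dense_NA_iff]
    intro T ε hε
    exact dense_NA 𝕜 E Y T hε
  · refine ⟨X 𝕜 (C0 𝕜), inferInstance, inferInstance, inferInstance, Yc 𝕜, inferInstance,
      inferInstance, inferInstance, X1 𝕜 (C0 𝕜), isClosed_X1 𝕜 (C0 𝕜),
      oneComplemented_X1 𝕜 (C0 𝕜), ?_, ?_⟩
    · rw [dense_NA_iff]
      intro T ε hε
      exact dense_NA 𝕜 (C0 𝕜) (Yc 𝕜) T hε
    · intro h
      exact not_dense_c0 (𝕜 := 𝕜) (transport (iso 𝕜 (C0 𝕜)) h)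

end Pool.Agent.Results.MP_5ffaeb_an.DensityNotInherited
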